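import Mathlib

/-!
# MP_079761_co: the combinatorial lower bound for the family of histograms

A row is the selection (one Boolean for each of the 22 vertices) of one period.  The letters
`A, B, C, D, E, F, G, T, U, V, W` have the numbers `0, ..., 10`; the left end of the top of the
letter `X` is `2 X`, the right end is `2 X + 1`.  `Cl p q` collects the 22 clauses of the row `q`
with the row `p` before it.  Every row costs `7`, up to a potential between `0` and `4`.
-/

namespace Pool.Agent.Helper54.DY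

/-- table look-up: hexadecimal digit number `i` of `N` -/
def tb (N i : ℕ) : ℕ := N / 16 ^ i % 16

def i4 (a b c d : Bool) : ℕ := a.toNat + 2 * b.toNat + 4 * c.toNat + 8 * d.toNat
def i5 (a b c d e : Bool) : ℕ := a.toNat + 2 * b.toNat + 4 * c.toNat + 8 * d.toNat + 16 * e.toNat
def i6 (a b c d e f : Bool) : ℕ :=
  a.toNat + 2 * b.toNat + 4 * c.toNat + 8 * d.toNat + 16 * e.toNat + 32 * f.toNat

/-- potential, live bits V.l, V.r, W.l, W.r, G.l, G.r -/
def phO (a b c d e f : Bool) : ℕ :=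
  tb 0x4333323243323222322221213221211132222121322121113222212121112110 (i6 a b c d e f)

/-- potential, live bits A.l, A.r, W.l, W.r, G.l, G.r -/
def phA (a b c d e f : Bool) : ℕ :=
  tb 0x5443433343334332433232223222322143323222322232214332322232212121 (i6 a b c d e f)

/-- potential, live bits A.l, A.r, B.l, B.r -/
def phB (a b c d : Bool) : ℕ :=
  tb 0x4343433332323222 (i4 a b c d)

/-- potential, live bits B.l, B.r, E.l, E.r -/
def phE (a b c d : Bool) : ℕ :=
  tb 0x5544443344334332 (i4 a b c d)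

/-- potential, live bits C.l, C.r, E.l, E.r -/
def phC (a b c d : Bool) : ℕ :=
  tb 0x6555544454444433 (i4 a b c d)

/-- potential, live bits D.l, D.r, E.l, E.r -/
def phD (a b c d : Bool) : ℕ :=
  tb 0x7665655465545444 (i4 a b c d)

/-- potential, live bits F.l, F.r, E.l, E.r -/
def phF (a b c d : Bool) : ℕ :=
  tb 0x7666655566556554 (i4 a b c d)

/-- potential, live bits E.l, F.l, F.r, W.l, W.r -/
def phW (a b c d e : Bool) : ℕ :=
  tb 0x88877776777666657776666666655555 (i5 a b c d e)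

/-- potential, live bits E.l, W.l, W.r, G.l, G.r -/
def phG (a b c d e : Bool) : ℕ :=
  tb 0x98878877877677668776776687767665 (i5 a b c d e)

/-- potential, live bits T.l, T.r, W.l, W.r, G.l, G.r -/
def phT (a b c d e f : Bool) : ℕ :=
  tb 0xa9999888a9989887988887779887877698888777988787769888877787777676 (i6 a b c d e f)

/-- potential, live bits U.l, U.r, W.l, W.r, G.l, G.r -/
def phU (a b c d e f : Bool) : ℕ :=
  tb 0xbaa9a998a9999898a998988798888787a998988798888787a998988798878777 (i6 a b c d e f)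

theorem stepA : ∀ vl vr wl wr gl gr al ar : Bool, (al || ar || vl) = true ∧ (vl || vr || wl || ar) = true →
    phA al ar wl wr gl gr ≤ phO vl vr wl wr gl gr + al.toNat + ar.toNat := by
  decide +kernel

theorem stepB : ∀ al ar wl wr gl gr bl br : Bool, (bl || br || gr) = true ∧ (gl || gr || bl || wr) = true ∧ (wl || wr || bl || ar) = true →
    phB al ar bl br ≤ phA al ar wl wr gl gr + bl.toNat + br.toNat := by
  decide +kernel

theorem stepE : ∀ al ar bl br el er : Bool, (el || er || al) = true ∧ (al || ar || bl || er) = true →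
    phE bl br el er ≤ phB al ar bl br + el.toNat + er.toNat := by
  decide +kernel

theorem stepC : ∀ bl br el er cl cr : Bool, (cl || cr || br) = true ∧ (bl || br || cl || er) = true →
    phC cl cr el er ≤ phE bl br el er + cl.toNat + cr.toNat := by
  decide +kernel

theorem stepD : ∀ cl cr el er dl dr : Bool, (dl || dr || cr) = true ∧ (cl || cr || dl || er) = true →
    phD dl dr el er ≤ phC cl cr el er + dl.toNat + dr.toNat := by
  decide +kernel

theorem stepF : ∀ dl dr el er fl fr : Bool, (fl || fr || dr) = true ∧ (dl || dr || fl || er) = true →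
    phF fl fr el er ≤ phD dl dr el er + fl.toNat + fr.toNat := by
  decide +kernel

theorem stepW : ∀ fl fr el er wl wr : Bool, (el || er || fl || wr) = true →
    phW el fl fr wl wr ≤ phF fl fr el er + wl.toNat + wr.toNat := by
  decide +kernel

theorem stepG : ∀ el fl fr wl wr gl gr : Bool, (gl || gr || fr) = true ∧ (fl || fr || gl || wr) = true →
    phG el wl wr gl gr ≤ phW el fl fr wl wr + gl.toNat + gr.toNat := by
  decide +kernel

theorem stepT : ∀ el wl wr gl gr tl tr : Bool, (tl || tr || el) = true ∧ (wl || wr || tr || el) = true →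
    phT tl tr wl wr gl gr ≤ phG el wl wr gl gr + tl.toNat + tr.toNat := by
  decide +kernel

theorem stepU : ∀ tl tr wl wr gl gr ul ur : Bool, (ul || ur || tl) = true ∧ (tl || tr || wl || ur) = true →
    phU ul ur wl wr gl gr ≤ phT tl tr wl wr gl gr + ul.toNat + ur.toNat := by
  decide +kernel

theorem stepV : ∀ ul ur wl wr gl gr vl vr : Bool, (vl || vr || ul) = true ∧ (ul || ur || wl || vr) = true →
    phO vl vr wl wr gl gr + 7 ≤ phU ul ur wl wr gl gr + vl.toNat + vr.toNat := by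
  decide +kernel

/-- number of selected vertices of a row -/
def cnt (q : Fin 22 → Bool) : ℕ := ∑ i, (q i).toNat

/-- the potential of a row -/
def pot (q : Fin 22 → Bool) : ℕ := phO (q 18) (q 19) (q 20) (q 21) (q 12) (q 13)

/-- the 22 clauses of the row `q`, the row before it is `p` -/
structure Cl (p q : Fin 22 → Bool) : Prop where
  kA : (q 0 || q 1 || q 2 || q 9) = true
  kB : (q 2 || q 3 || q 4 || q 9) = true
  kC : (q 4 || q 5 || q 6 || q 9) = true
  kD : (q 6 || q 7 || q 10 || q 9) = true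
  kE : (q 8 || q 9 || q 10 || q 21) = true
  kF : (q 10 || q 11 || q 12 || q 21) = true
  kT : (q 14 || q 15 || q 20 || q 17) = true
  kU : (q 16 || q 17 || q 20 || q 19) = true
  eC : (q 4 || q 5 || q 3) = true
  eD : (q 6 || q 7 || q 5) = true
  eE : (q 8 || q 9 || q 0) = true
  eF : (q 10 || q 11 || q 7) = true
  eG : (q 12 || q 13 || q 11) = true
  eT : (q 14 || q 15 || q 8) = true
  eU : (q 16 || q 17 || q 14) = true
  eV : (q 18 || q 19 || q 16) = true
  eW : (q 20 || q 21 || q 15 || q 8) = true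
  kG : (p 12 || p 13 || q 2 || p 21) = true
  kW : (p 20 || p 21 || q 2 || q 1) = true
  kV : (p 18 || p 19 || p 20 || q 1) = true
  eA : (q 0 || q 1 || p 18) = true
  eB : (q 2 || q 3 || p 13) = true

attribute [local irreducible] phO phA phB phE phC phD phF phW phG phT phU

theorem cnt_eq (q : Fin 22 → Bool) : cnt q =
    (q 0).toNat + (q 1).toNat + (q 2).toNat + (q 3).toNat + (q 4).toNat + (q 5).toNat +
    (q 6).toNat + (q 7).toNat + (q 8).toNat + (q 9).toNat + (q 10).toNat + (q 11).toNat +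
    (q 12).toNat + (q 13).toNat + (q 14).toNat + (q 15).toNat + (q 16).toNat + (q 17).toNat +
    (q 18).toNat + (q 19).toNat + (q 20).toNat + (q 21).toNat := by
  have hl : (Finset.univ : Finset (Fin 22)) = {0, 1, 2, 3, 4, 5, 6, 7, 8, 9, 10, 11, 12, 13, 14, 15,
      16, 17, 18, 19, 20, 21} := by decide
  unfold cnt
  rw [hl]
  simp only [Finset.sum_insert, Finset.mem_insert, Finset.mem_singleton, Finset.sum_singleton,
    Fin.reduceEq, or_self, not_false_eq_true, Nat.add_assoc]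

theorem row_aux (v18 v19 v20 v21 v12 v13 q0 q1 q2 q3 q4 q5 q6 q7 q8 q9 q10 q11 q12 q13 q14 q15 q16
    q17 q18 q19 q20 q21 : Bool)
    (kA : (q0 || q1 || q2 || q9) = true)
    (kB : (q2 || q3 || q4 || q9) = true)
    (kC : (q4 || q5 || q6 || q9) = true)
    (kD : (q6 || q7 || q10 || q9) = true)
    (kE : (q8 || q9 || q10 || q21) = true)
    (kF : (q10 || q11 || q12 || q21) = true)
    (kT : (q14 || q15 || q20 || q17) = true)
    (kU : (q16 || q17 || q20 || q19) = true)
    (eC : (q4 || q5 || q3) = true)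
    (eD : (q6 || q7 || q5) = true)
    (eE : (q8 || q9 || q0) = true)
    (eF : (q10 || q11 || q7) = true)
    (eG : (q12 || q13 || q11) = true)
    (eT : (q14 || q15 || q8) = true)
    (eU : (q16 || q17 || q14) = true)
    (eV : (q18 || q19 || q16) = true)
    (eW : (q20 || q21 || q15 || q8) = true)
    (kG : (v12 || v13 || q2 || v21) = true)
    (kW : (v20 || v21 || q2 || q1) = true)
    (kV : (v18 || v19 || v20 || q1) = true)
    (eA : (q0 || q1 || v18) = true)
    (eB : (q2 || q3 || v13) = true) :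
    phO q18 q19 q20 q21 q12 q13 + 7 ≤ phO v18 v19 v20 v21 v12 v13 +
    (q0.toNat + q1.toNat + q2.toNat + q3.toNat + q4.toNat + q5.toNat +
    q6.toNat + q7.toNat + q8.toNat + q9.toNat + q10.toNat + q11.toNat +
    q12.toNat + q13.toNat + q14.toNat + q15.toNat + q16.toNat + q17.toNat +
    q18.toNat + q19.toNat + q20.toNat + q21.toNat) := by
  have sA := stepA v18 v19 v20 v21 v12 v13 q0 q1 ⟨eA, kV⟩
  have sB := stepB q0 q1 v20 v21 v12 v13 q2 q3 ⟨eB, kG, kW⟩
  have sE := stepE q0 q1 q2 q3 q8 q9 ⟨eE, kA⟩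
  have sC := stepC q2 q3 q8 q9 q4 q5 ⟨eC, kB⟩
  have sD := stepD q4 q5 q8 q9 q6 q7 ⟨eD, kC⟩
  have sF := stepF q6 q7 q8 q9 q10 q11 ⟨eF, kD⟩
  have sW := stepW q10 q11 q8 q9 q20 q21 kE
  have sG := stepG q8 q10 q11 q20 q21 q12 q13 ⟨eG, kF⟩
  have sT := stepT q8 q20 q21 q12 q13 q14 q15 ⟨eT, eW⟩
  have sU := stepU q14 q15 q20 q21 q12 q13 q16 q17 ⟨eU, kT⟩
  have sV := stepV q16 q17 q20 q21 q12 q13 q18 q19 ⟨eV, kU⟩
  omega

theorem row (p q : Fin 22 → Bool) (h : Cl p q) : pot q + 7 ≤ pot p + cnt q := by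
  rw [cnt_eq]
  exact row_aux _ _ _ _ _ _ _ _ _ _ _ _ _ _ _ _ _ _ _ _ _ _ _ _ _ _ _ _ h.kA h.kB h.kC h.kD
    h.kE h.kF h.kT h.kU h.eC h.eD h.eE h.eF h.eG h.eT h.eU h.eV h.eW h.kG h.kW h.kV h.eA h.eB

theorem phO_le : ∀ a b c d e f : Bool, phO a b c d e f ≤ 4 := by
  decide +kernel

theorem pot_le (q : Fin 22 → Bool) : pot q ≤ 4 := phO_le _ _ _ _ _ _

/-- A sequence of `m` rows satisfying the clauses has at least `7 m - 11` selected vertices. -/
theorem seq_lower (m : ℕ) (s : ℕ → Fin 22 → Bool) (h : ∀ j, j + 1 < m → Cl (s j) (s (j + 1))) :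
    7 * m ≤ ∑ j ∈ Finset.range m, cnt (s j) + 11 := by
  rcases m with _ | m
  · omega
  have key : ∀ k, k ≤ m → 7 * k + pot (s k) ≤ ∑ j ∈ Finset.range (k + 1), cnt (s j) + pot (s 0) := by
    intro k
    induction k with
    | zero => intro _; simp
    | succ k ih =>
      intro hk
      have h1 := ih (by omega)
      have h2 := row (s k) (s (k + 1)) (h k (by omega))
      rw [Finset.sum_range_succ]
      omega
  have h1 := key m le_rfl
  have h2 := pot_le (s 0)
  omega

/-- The 22 clauses for a set `S` of vertices, as memberships; `q` is a row of vertices and `p` is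
the row before it. -/
structure ClS {V : Type*} (S : Finset V) (p q : Fin 22 → V) : Prop where
  kA : q 0 ∈ S ∨ q 1 ∈ S ∨ q 2 ∈ S ∨ q 9 ∈ S
  kB : q 2 ∈ S ∨ q 3 ∈ S ∨ q 4 ∈ S ∨ q 9 ∈ S
  kC : q 4 ∈ S ∨ q 5 ∈ S ∨ q 6 ∈ S ∨ q 9 ∈ S
  kD : q 6 ∈ S ∨ q 7 ∈ S ∨ q 10 ∈ S ∨ q 9 ∈ S
  kE : q 8 ∈ S ∨ q 9 ∈ S ∨ q 10 ∈ S ∨ q 21 ∈ S
  kF : q 10 ∈ S ∨ q 11 ∈ S ∨ q 12 ∈ S ∨ q 21 ∈ S
  kT : q 14 ∈ S ∨ q 15 ∈ S ∨ q 20 ∈ S ∨ q 17 ∈ S
  kU : q 16 ∈ S ∨ q 17 ∈ S ∨ q 20 ∈ S ∨ q 19 ∈ S
  eC : q 4 ∈ S ∨ q 5 ∈ S ∨ q 3 ∈ S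
  eD : q 6 ∈ S ∨ q 7 ∈ S ∨ q 5 ∈ S
  eE : q 8 ∈ S ∨ q 9 ∈ S ∨ q 0 ∈ S
  eF : q 10 ∈ S ∨ q 11 ∈ S ∨ q 7 ∈ S
  eG : q 12 ∈ S ∨ q 13 ∈ S ∨ q 11 ∈ S
  eT : q 14 ∈ S ∨ q 15 ∈ S ∨ q 8 ∈ S
  eU : q 16 ∈ S ∨ q 17 ∈ S ∨ q 14 ∈ S
  eV : q 18 ∈ S ∨ q 19 ∈ S ∨ q 16 ∈ S
  eW : q 20 ∈ S ∨ q 21 ∈ S ∨ q 15 ∈ S ∨ q 8 ∈ S
  kG : p 12 ∈ S ∨ p 13 ∈ S ∨ q 2 ∈ S ∨ p 21 ∈ S
  kW : p 20 ∈ S ∨ p 21 ∈ S ∨ q 2 ∈ S ∨ q 1 ∈ S
  kV : p 18 ∈ S ∨ p 19 ∈ S ∨ p 20 ∈ S ∨ q 1 ∈ S
  eA : q 0 ∈ S ∨ q 1 ∈ S ∨ p 18 ∈ S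
  eB : q 2 ∈ S ∨ q 3 ∈ S ∨ p 13 ∈ S

theorem cl_of_clS {V : Type*} [DecidableEq V] {S : Finset V} {p q : Fin 22 → V} (h : ClS S p q) :
    Cl (fun i => decide (p i ∈ S)) (fun i => decide (q i ∈ S)) := by
  constructor <;> simp only [Bool.or_eq_true, decide_eq_true_eq, or_assoc]
  · exact h.kA
  · exact h.kB
  · exact h.kC
  · exact h.kD
  · exact h.kE
  · exact h.kF
  · exact h.kT
  · exact h.kU
  · exact h.eC
  · exact h.eD
  · exact h.eE
  · exact h.eF
  · exact h.eG
  · exact h.eT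
  · exact h.eU
  · exact h.eV
  · exact h.eW
  · exact h.kG
  · exact h.kW
  · exact h.kV
  · exact h.eA
  · exact h.eB

/-- The counting: `m` rows of 22 distinct vertices each, and a set `S` of vertices with the 22
clauses in every row but the first; then `S` has at least `7 m - 11` elements. -/
theorem card_lower {V : Type*} [DecidableEq V] (m : ℕ) (v : ℕ → Fin 22 → V)
    (hv : ∀ j, j < m → ∀ k, k < m → ∀ a b, v j a = v k b → j = k ∧ a = b) (S : Finset V)
    (h : ∀ j, j + 1 < m → ClS S (v j) (v (j + 1))) : 7 * m ≤ S.card + 11 := by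
  have h1 := seq_lower m (fun j i => decide (v j i ∈ S)) (fun j hj => cl_of_clS (h j hj))
  have h2 : ∑ j ∈ Finset.range m, cnt (fun i => decide (v j i ∈ S)) =
      ((Finset.range m ×ˢ (Finset.univ : Finset (Fin 22))).filter
        (fun x => v x.1 x.2 ∈ S)).card := by
    rw [Finset.card_filter, Finset.sum_product]
    refine Finset.sum_congr rfl fun j _ => ?_
    unfold cnt
    refine Finset.sum_congr rfl fun i _ => ?_
    by_cases hi : v j i ∈ S <;> simp [hi]
  have h3 : ((Finset.range m ×ˢ (Finset.univ : Finset (Fin 22))).filter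
      (fun x => v x.1 x.2 ∈ S)).card ≤ S.card := by
    refine Finset.card_le_card_of_injOn (fun x => v x.1 x.2) ?_ ?_
    · intro x hx
      simp only [Finset.coe_filter, Finset.mem_product, Finset.mem_range, Finset.mem_univ,
        and_true, Set.mem_ofPred_eq] at hx
      exact hx.2
    · intro x hx y hy hxy
      simp only [Finset.coe_filter, Finset.mem_product, Finset.mem_range, Finset.mem_univ,
        and_true, Set.mem_ofPred_eq] at hx hy
      obtain ⟨e1, e2⟩ := hv x.1 hx.1 y.1 hy.1 x.2 y.2 hxy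
      exact Prod.ext e1 e2
  omega

end Pool.Agent.Helper54.DY
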